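import Pool.Agent.H99.Final

/-!
A bounded self-adjoint operator with a spectral measure that is not singular has a nonzero vector
whose spectral measure is absolutely continuous.
-/

set_option autoImplicit false

open MeasureTheory Filter Topology
open scoped ENNReal InnerProductSpace

namespace Pool.Agent.H2Spec

open Pool.Agent.H99

variable {H : Type*} [NormedAddCommGroup H] [InnerProductSpace ℂ H] [CompleteSpace H]

/-- approximation of an indicator by continuous functions with values in the unit interval -/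
lemma exists_approx (μ : Measure ℝ) [IsFiniteMeasure μ] {S : Set ℝ} (hS : MeasurableSet S)
    {ε : ℝ} (hε : 0 < ε) : ∃ f : ℝ → ℝ, Continuous f ∧ (∀ x, 0 ≤ f x) ∧ (∀ x, f x ≤ 1) ∧
      ∫ x, |S.indicator (fun _ => (1 : ℝ)) x - f x| ∂μ ≤ ε := by
  have hint : Integrable (S.indicator (fun _ => (1 : ℝ))) μ :=
    (integrable_const (1 : ℝ)).indicator hS
  obtain ⟨g, -, hg, hgc, hgi⟩ := hint.exists_hasCompactSupport_integral_sub_le hε
  refine ⟨fun x => max 0 (min 1 (g x)), by fun_prop, fun x => le_max_left _ _,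
    fun x => max_le zero_le_one (min_le_left _ _), ?_⟩
  refine le_trans ?_ hg
  apply integral_mono_of_nonneg
  · exact Filter.Eventually.of_forall (fun x => abs_nonneg _)
  · exact (hint.sub hgi).norm
  · refine Filter.Eventually.of_forall (fun x => ?_)
    simp only [Real.norm_eq_abs]
    by_cases hx : x ∈ S
    · rw [Set.indicator_of_mem hx]
      rw [abs_of_nonneg (by linarith [max_le zero_le_one (min_le_left (1:ℝ) (g x))])]
      rcases le_total (g x) 1 with h1 | h1
      · rw [min_eq_right h1]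
        have : g x ≤ max 0 (g x) := le_max_right _ _
        linarith [le_abs_self (1 - g x)]
      · rw [min_eq_left h1, max_eq_right zero_le_one]
        simp
    · rw [Set.indicator_of_notMem hx]
      rw [zero_sub, abs_neg, zero_sub, abs_neg, abs_of_nonneg (le_max_left _ _)]
      apply max_le (abs_nonneg _)
      exact (min_le_right _ _).trans (le_abs_self _)

/-- the norm of `f(A) e` -/
lemma norm_sq_cfc (A : H →L[ℂ] H) (hA : IsSelfAdjoint A) (e : H) (f : ℝ → ℝ)
    (hf : Continuous f) :
    ‖cfc f A e‖ ^ 2 = ∫ x, f x ^ 2 ∂(specMeasure A hA e) := by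
  have h1 := (integral_specMeasure_of_continuous A hA e (fun x => f x ^ 2) (by fun_prop)).2
  rw [h1]
  have h2 : cfc (fun x => f x ^ 2) A = cfc f A * cfc f A := by
    rw [← cfc_mul (R := ℝ) f f A hf.continuousOn hf.continuousOn]
    congr 1
    funext x
    ring
  have hsa : IsSelfAdjoint (cfc f A) := cfc_predicate _ _
  have hsymm : ⟪cfc f A e, cfc f A e⟫_ℂ = ⟪e, cfc f A (cfc f A e)⟫_ℂ :=
    (ContinuousLinearMap.isSelfAdjoint_iff_isSymmetric.1 hsa) e (cfc f A e)
  rw [h2]
  change _ = (⟪e, cfc f A (cfc f A e)⟫_ℂ).re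
  rw [← hsymm, inner_self_eq_norm_sq_to_K]
  norm_cast

/-- the quadratic form of `g(A)` at `f(A) e` -/
lemma inner_cfc (A : H →L[ℂ] H) (hA : IsSelfAdjoint A) (e : H) (f g : ℝ → ℝ)
    (hf : Continuous f) (hg : Continuous g) :
    (⟪cfc f A e, cfc g A (cfc f A e)⟫_ℂ).re = ∫ x, g x * f x ^ 2 ∂(specMeasure A hA e) := by
  have h1 := (integral_specMeasure_of_continuous A hA e (fun x => g x * f x ^ 2) (by fun_prop)).2
  rw [h1]
  have h2 : cfc (fun x => g x * f x ^ 2) A = cfc f A * (cfc g A * cfc f A) := by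
    rw [← cfc_mul (R := ℝ) g f A hg.continuousOn hf.continuousOn,
      ← cfc_mul (R := ℝ) f (fun x => g x * f x) A hf.continuousOn (hg.mul hf).continuousOn]
    congr 1
    funext x
    ring
  have hsa : IsSelfAdjoint (cfc f A) := cfc_predicate _ _
  have hsymm : ⟪cfc f A e, cfc g A (cfc f A e)⟫_ℂ = ⟪e, cfc f A (cfc g A (cfc f A e))⟫_ℂ :=
    (ContinuousLinearMap.isSelfAdjoint_iff_isSymmetric.1 hsa) e _
  rw [h2, hsymm]
  rfl

/-- cutting a spectral measure down to a measurable set -/
theorem exists_restrict (A : H →L[ℂ] H) (hA : IsSelfAdjoint A) (e : H) {S : Set ℝ}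
    (hS : MeasurableSet S) :
    ∃ φ : H, ∀ g : ℝ → ℝ, Continuous g →
      (⟪φ, cfc g A φ⟫_ℂ).re = ∫ x in S, g x ∂(specMeasure A hA e) := by
  set μ := specMeasure A hA e with hμ
  set χ : ℝ → ℝ := S.indicator (fun _ => (1 : ℝ)) with hχ
  have hχint : Integrable χ μ := (integrable_const (1 : ℝ)).indicator hS
  have hex : ∀ n : ℕ, ∃ f : ℝ → ℝ, Continuous f ∧ (∀ x, 0 ≤ f x) ∧ (∀ x, f x ≤ 1) ∧
      ∫ x, |χ x - f x| ∂μ ≤ 1 / ((n : ℝ) + 1) := fun n => exists_approx μ hS (by positivity)
  choose f hfc hf0 hf1 hfe using hex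
  have hfint : ∀ n, Integrable (f n) μ := by
    intro n
    exact (integral_specMeasure_of_continuous A hA e (f n) (hfc n)).1
  have hdint : ∀ n, Integrable (fun x => |χ x - f n x|) μ := fun n => (hχint.sub (hfint n)).abs
  -- Cauchy
  have hdist : ∀ m n, ‖cfc (f m) A e - cfc (f n) A e‖ ^ 2 ≤
      1 / ((m : ℝ) + 1) + 1 / ((n : ℝ) + 1) := by
    intro m n
    have h1 : cfc (f m) A e - cfc (f n) A e = cfc (fun x => f m x - f n x) A e := by
      rw [cfc_sub (R := ℝ) (f m) (f n) A (hfc m).continuousOn (hfc n).continuousOn]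
      rfl
    rw [h1, norm_sq_cfc A hA e (fun x => f m x - f n x) ((hfc m).sub (hfc n)), ← hμ]
    calc ∫ x, (f m x - f n x) ^ 2 ∂μ ≤ ∫ x, (|χ x - f m x| + |χ x - f n x|) ∂μ := by
          apply integral_mono_of_nonneg
          · exact Filter.Eventually.of_forall (fun x => sq_nonneg _)
          · exact (hdint m).add (hdint n)
          · refine Filter.Eventually.of_forall (fun x => ?_)
            simp only
            have h2 : |f m x - f n x| ≤ 1 := by
              rw [abs_le]
              constructor <;> linarith [hf0 m x, hf1 m x, hf0 n x, hf1 n x]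
            have h3 : (f m x - f n x) ^ 2 ≤ |f m x - f n x| := by
              rw [← sq_abs]
              nlinarith [abs_nonneg (f m x - f n x)]
            have h4 : |f m x - f n x| ≤ |χ x - f m x| + |χ x - f n x| := by
              have : f m x - f n x = (χ x - f n x) - (χ x - f m x) := by ring
              rw [this]
              have := abs_sub (χ x - f n x) (χ x - f m x)
              linarith
            linarith
      _ = ∫ x, |χ x - f m x| ∂μ + ∫ x, |χ x - f n x| ∂μ := integral_add (hdint m) (hdint n)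
      _ ≤ _ := add_le_add (hfe m) (hfe n)
  have hcauchy : CauchySeq (fun n => cfc (f n) A e) := by
    rw [Metric.cauchySeq_iff]
    intro ε hε
    obtain ⟨N, hN⟩ := exists_nat_gt (2 / ε ^ 2)
    refine ⟨N, fun m hm n hn => ?_⟩
    rw [dist_eq_norm]
    have h1 := hdist m n
    have hNpos : (0 : ℝ) < N := lt_trans (by positivity) hN
    have h2 : 1 / ((m : ℝ) + 1) < 1 / N := by
      apply one_div_lt_one_div_of_lt hNpos
      have : (N : ℝ) ≤ m := by exact_mod_cast hm
      linarith
    have h3 : 1 / ((n : ℝ) + 1) < 1 / N := by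
      apply one_div_lt_one_div_of_lt hNpos
      have : (N : ℝ) ≤ n := by exact_mod_cast hn
      linarith
    have h4 : 2 / (N : ℝ) < ε ^ 2 := by
      rw [div_lt_iff₀ hNpos]
      rw [div_lt_iff₀ (by positivity)] at hN
      linarith
    have h5 : ‖cfc (f m) A e - cfc (f n) A e‖ ^ 2 < ε ^ 2 := by
      have : (2 : ℝ) / N = 1 / N + 1 / N := by ring
      linarith
    exact lt_of_pow_lt_pow_left₀ 2 hε.le h5
  obtain ⟨φ, hφ⟩ := cauchySeq_tendsto_of_complete hcauchy
  refine ⟨φ, fun g hg => ?_⟩
  -- limit of the quadratic forms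
  have hlim1 : Tendsto (fun n => (⟪cfc (f n) A e, cfc g A (cfc (f n) A e)⟫_ℂ).re) atTop
      (𝓝 (⟪φ, cfc g A φ⟫_ℂ).re) := by
    have h1 : Tendsto (fun n => cfc g A (cfc (f n) A e)) atTop (𝓝 (cfc g A φ)) :=
      ((cfc g A).continuous.tendsto φ).comp hφ
    have h2 := hφ.inner (𝕜 := ℂ) h1
    exact (Complex.continuous_re.tendsto _).comp h2
  -- limit of the integrals
  obtain ⟨G, hG0, hG⟩ : ∃ G : ℝ, 0 ≤ G ∧ ∀ᵐ x ∂μ, |g x| ≤ G := by
    obtain ⟨G, hG⟩ := (isCompact_Icc (a := -‖A‖) (b := ‖A‖)).exists_bound_of_continuousOn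
      hg.continuousOn
    refine ⟨max G 0, le_max_right _ _, ?_⟩
    filter_upwards [specMeasure_outside A hA e] with x hx
    exact (hG x (abs_le.1 hx)).trans (le_max_left _ _)
  have hgint : Integrable g μ := (integral_specMeasure_of_continuous A hA e g hg).1
  have hgf : ∀ n, Integrable (fun x => g x * f n x ^ 2) μ := fun n =>
    (integral_specMeasure_of_continuous A hA e (fun x => g x * f n x ^ 2)
      (hg.mul ((hfc n).pow 2))).1
  have hgχ : Integrable (fun x => g x * χ x) μ := by
    have : (fun x => g x * χ x) = S.indicator g := by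
      funext x
      by_cases hx : x ∈ S <;> simp [hχ, hx]
    rw [this]
    exact hgint.indicator hS
  have hSint : ∫ x in S, g x ∂μ = ∫ x, g x * χ x ∂μ := by
    rw [← integral_indicator hS]
    congr 1
    funext x
    by_cases hx : x ∈ S <;> simp [hχ, hx]
  have hlim2 : Tendsto (fun n => ∫ x, g x * f n x ^ 2 ∂μ) atTop (𝓝 (∫ x in S, g x ∂μ)) := by
    rw [hSint, tendsto_iff_norm_sub_tendsto_zero]
    have hb : ∀ n, ‖∫ x, g x * f n x ^ 2 ∂μ - ∫ x, g x * χ x ∂μ‖ ≤ 2 * G * (1 / ((n : ℝ) + 1)) := by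
      intro n
      rw [← integral_sub (hgf n) hgχ]
      calc ‖∫ x, (g x * f n x ^ 2 - g x * χ x) ∂μ‖ ≤ ∫ x, 2 * G * |χ x - f n x| ∂μ := by
            apply norm_integral_le_of_norm_le ((hdint n).const_mul (2 * G))
            filter_upwards [hG] with x hx
            have h1 : g x * f n x ^ 2 - g x * χ x = g x * (f n x ^ 2 - χ x) := by ring
            rw [h1, Real.norm_eq_abs, abs_mul]
            have h2 : |f n x ^ 2 - χ x| ≤ 2 * |χ x - f n x| := by
              have h3 : f n x ^ 2 - χ x = -((χ x - f n x) * (χ x + f n x)) := by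
                have : χ x ^ 2 = χ x := by
                  by_cases hxS : x ∈ S <;> simp [hχ, hxS]
                nlinarith
              rw [h3, abs_neg, abs_mul, mul_comm]
              apply mul_le_mul_of_nonneg_right _ (abs_nonneg _)
              have h4 : 0 ≤ χ x ∧ χ x ≤ 1 := by
                by_cases hxS : x ∈ S <;> simp [hχ, hxS]
              rw [abs_le]
              constructor <;> linarith [hf0 n x, hf1 n x]
            calc |g x| * |f n x ^ 2 - χ x| ≤ G * (2 * |χ x - f n x|) :=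
                  mul_le_mul hx h2 (abs_nonneg _) hG0
              _ = 2 * G * |χ x - f n x| := by ring
        _ = 2 * G * ∫ x, |χ x - f n x| ∂μ := integral_const_mul _ _
        _ ≤ _ := mul_le_mul_of_nonneg_left (hfe n) (by positivity)
    refine squeeze_zero (fun n => norm_nonneg _) hb ?_
    have := (tendsto_one_div_add_atTop_nhds_zero_nat (𝕜 := ℝ)).const_mul (2 * G)
    simpa using this
  have heq : ∀ n, (⟪cfc (f n) A e, cfc g A (cfc (f n) A e)⟫_ℂ).re = ∫ x, g x * f n x ^ 2 ∂μ :=
    fun n => inner_cfc A hA e (f n) g (hfc n) hg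
  simp_rw [heq] at hlim1
  exact tendsto_nhds_unique hlim1 hlim2

/-- a spectral measure that is not singular gives a nonzero vector with absolutely continuous
spectral measure -/
theorem exists_ac_vector (A : H →L[ℂ] H) (hA : IsSelfAdjoint A) (e : H)
    (hns : ¬ (specMeasure A hA e) ⟂ₘ (volume : Measure ℝ)) :
    ∃ φ : H, φ ≠ 0 ∧ ∃ ν : Measure ℝ, IsFiniteMeasure ν ∧ ν ≪ volume ∧
      ∀ g : ℝ → ℝ, Continuous g → Integrable g ν ∧ ∫ x, g x ∂ν = (⟪φ, cfc g A φ⟫_ℂ).re := by
  set μ := specMeasure A hA e with hμ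
  obtain ⟨S, hS, hμS, hvS⟩ := Measure.mutuallySingular_singularPart μ volume
  -- `S` null for the singular part
  have hpos : μ S ≠ 0 := by
    intro h0
    exact hns ⟨S, hS, h0, hvS⟩
  have hac : μ.restrict S ≪ volume := by
    have h1 : μ.restrict S = ((volume : Measure ℝ).withDensity (μ.rnDeriv volume)).restrict S := by
      conv_lhs => rw [Measure.haveLebesgueDecomposition_add μ volume]
      rw [Measure.restrict_add, Measure.restrict_eq_zero.2 hμS, zero_add]
    rw [h1]
    exact (Measure.absolutelyContinuous_of_le Measure.restrict_le_self).trans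
      (withDensity_absolutelyContinuous _ _)
  obtain ⟨φ, hφ⟩ := exists_restrict A hA e hS
  refine ⟨φ, ?_, μ.restrict S, inferInstance, hac, fun g hg => ⟨?_, (hφ g hg).symm⟩⟩
  · rintro rfl
    have h1 := hφ (fun _ => 1) continuous_const
    simp only [map_zero, inner_zero_left, Complex.zero_re] at h1
    rw [← hμ] at h1
    rw [integral_const, smul_eq_mul, mul_one, measureReal_restrict_apply_univ] at h1
    have h2 : μ.real S ≠ 0 := by
      rw [Measure.real, ENNReal.toReal_ne_zero]
      exact ⟨hpos, measure_ne_top _ _⟩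
    exact h2 h1.symm
  · exact ((integral_specMeasure_of_continuous A hA e g hg).1).restrict

/-- moment form of the previous statement -/
theorem exists_ac_vector_moment (A : H →L[ℂ] H) (hA : IsSelfAdjoint A) (e : H)
    (hns : ¬ (specMeasure A hA e) ⟂ₘ (volume : Measure ℝ)) :
    ∃ φ : H, φ ≠ 0 ∧ ∃ ν : Measure ℝ, IsFiniteMeasure ν ∧ ν ≪ volume ∧
      ν {x : ℝ | ‖A‖ < |x|} = 0 ∧
      ∀ n : ℕ, Integrable (fun x : ℝ => x ^ n) ν ∧
        ((∫ x, x ^ n ∂ν : ℝ) : ℂ) = ⟪φ, (A ^ n) φ⟫_ℂ := by
  obtain ⟨φ, hφ0, ν, hν, hac, hint⟩ := exists_ac_vector A hA e hns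
  refine ⟨φ, hφ0, ν, hν, hac, ?_, fun n => ⟨?_, ?_⟩⟩
  · -- the measure lives on the interval of radius the norm
    have hc : Continuous (fun x : ℝ => max 0 (|x| - ‖A‖)) := by fun_prop
    have h1 := hint _ hc
    have h2 : cfc (fun x : ℝ => max 0 (|x| - ‖A‖)) A = 0 := by
      have : cfc (fun x : ℝ => max 0 (|x| - ‖A‖)) A = cfc (fun _ : ℝ => (0 : ℝ)) A := by
        apply cfc_congr
        intro x hx
        have hx' := spectrum_bound A hx
        simp only
        rw [max_eq_left (by linarith)]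
      rw [this]
      simp
    rw [h2] at h1
    have h3 : ∫ x, max 0 (|x| - ‖A‖) ∂ν = 0 := by
      rw [h1.2]
      simp
    have h4 := (integral_eq_zero_iff_of_nonneg (fun x => le_max_left _ _) h1.1).1 h3
    have h5 : ∀ᵐ x ∂ν, ¬ (‖A‖ < |x|) := by
      filter_upwards [h4] with x hx
      intro hcon
      simp only [Pi.zero_apply] at hx
      rw [max_eq_right (by linarith)] at hx
      linarith
    rw [ae_iff] at h5
    simpa using h5
  · exact (hint (fun x => x ^ n) (by fun_prop)).1
  · have h1 := (hint (fun x => x ^ n) (by fun_prop)).2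
    have h2 : cfc (fun x : ℝ => x ^ n) A = A ^ n := by
      rw [cfc_pow (R := ℝ) (fun x => x) n A, cfc_id' ℝ A]
    rw [h2] at h1
    rw [h1]
    have hsa : IsSelfAdjoint (A ^ n) := hA.pow n
    have hsymm := (ContinuousLinearMap.isSelfAdjoint_iff_isSymmetric.1 hsa) φ φ
    have h3 : (starRingEnd ℂ) ⟪φ, (A ^ n) φ⟫_ℂ = ⟪φ, (A ^ n) φ⟫_ℂ := by
      rw [inner_conj_symm]
      exact hsymm
    exact Complex.conj_eq_iff_re.1 h3

end Pool.Agent.H2Spec
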